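import Pool.Agent.helper16.LW.Spec

set_option autoImplicit false

open Complex MeasureTheory

namespace Pool.Agent.LW

open Pool.Agent.ZD Pool.Agent.helper84.DM Pool.Agent.helper78.ED Pool.Agent.DH

/-- the character `x ↦ e^(-iux)` -/
noncomputable def CDW_e (u x : ℝ) : ℂ := Complex.exp (-(((u * x : ℝ) : ℂ) * I))

theorem CDW_e_cont (u : ℝ) : Continuous (CDW_e u) := by
  unfold CDW_e
  fun_prop

theorem CDW_e_add (u x y : ℝ) : CDW_e u (x + y) = CDW_e u x * CDW_e u y := by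
  unfold CDW_e
  rw [← Complex.exp_add]
  congr 1
  push_cast
  ring

theorem CDW_e_neg (u x : ℝ) : CDW_e u (-x) * CDW_e u x = 1 := by
  rw [← CDW_e_add]
  unfold CDW_e
  simp

section

variable {G : ℝ → ℂ} (hG : Continuous G) (h0 : ∀ x, 5 < |x| → G x = 0)
  {F : ℝ → ℂ} (hF : ∀ u, F u = ∫ x : ℝ, G x * Complex.exp (-(((u * x : ℝ) : ℂ) * I)))

include h0 in
theorem CDW_cs (f : ℝ × ℝ → ℂ) (hf : ∀ p : ℝ × ℝ, G (p.2 + p.1) = 0 ∨ G p.2 = 0 → f p = 0) :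
    HasCompactSupport f := by
  refine HasCompactSupport.intro (K := Set.Icc (-10 : ℝ) 10 ×ˢ Set.Icc (-5 : ℝ) 5)
    (isCompact_Icc.prod isCompact_Icc) ?_
  rintro ⟨b, s⟩ hp
  apply hf
  by_contra hcon
  rw [not_or] at hcon
  obtain ⟨h1, h2⟩ := hcon
  have h3 : |s| ≤ 5 := by
    by_contra h
    exact h2 (h0 s (not_le.1 h))
  have h4 : |s + b| ≤ 5 := by
    by_contra h
    exact h1 (h0 (s + b) (not_le.1 h))
  rw [abs_le] at h3 h4
  exact hp ⟨⟨by linarith [h3.2, h4.1], by linarith [h3.1, h4.2]⟩, h3⟩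

include hF in
theorem CDW_shift (u s : ℝ) : ∫ b : ℝ, CDW_e u b * G (s + b) = CDW_e u (-s) * F u := by
  have h1 : ∫ b : ℝ, CDW_e u b * G (s + b) = ∫ b : ℝ, CDW_e u (-s) * (G (s + b) * CDW_e u (s + b)) := by
    congr 1
    funext b
    have e := CDW_e_neg u s
    rw [CDW_e_add]
    linear_combination (-(CDW_e u b * G (s + b))) * e
  rw [h1, integral_const_mul, hF]
  congr 1
  exact integral_add_left_eq_self (fun x => G x * CDW_e u x) s

include hG h0 in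
theorem CDW_int1 (β a : ℝ) : Integrable (fun p : ℝ × ℝ =>
    CDW_e β p.1 * (G (p.2 + a) * G (p.2 + p.1) * G p.2)) (volume.prod volume) := by
  have hc : Continuous (fun p : ℝ × ℝ => CDW_e β p.1 * (G (p.2 + a) * G (p.2 + p.1) * G p.2)) := by
    have := CDW_e_cont β
    fun_prop
  refine hc.integrable_of_hasCompactSupport (CDW_cs h0 _ ?_)
  rintro p (h | h) <;> simp [h]

include hG h0 in
theorem CDW_int2 (α β : ℝ) : Integrable (fun p : ℝ × ℝ =>
    CDW_e α p.1 * (G (p.2 + p.1) * G p.2 * CDW_e β (-p.2))) (volume.prod volume) := by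
  have hc : Continuous (fun p : ℝ × ℝ => CDW_e α p.1 * (G (p.2 + p.1) * G p.2 * CDW_e β (-p.2))) := by
    have h1 := CDW_e_cont α
    have h2 := CDW_e_cont β
    fun_prop
  refine hc.integrable_of_hasCompactSupport (CDW_cs h0 _ ?_)
  rintro p (h | h) <;> simp [h]

include hG h0 in
/-- integrability in `b` -/
theorem CDW_ib (β a : ℝ) : Integrable (fun b : ℝ =>
    CDW_e β b * ∫ s : ℝ, G (s + a) * G (s + b) * G s) := by
  have h := (CDW_int1 hG h0 β a).integral_prod_left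
  refine h.congr (Filter.Eventually.of_forall fun b => ?_)
  exact integral_const_mul (CDW_e β b) (fun s : ℝ => G (s + a) * G (s + b) * G s)

include hG h0 hF in
/-- the integral over `b` -/
theorem CDW_vb (β a : ℝ) : ∫ b : ℝ, CDW_e β b * ∫ s : ℝ, G (s + a) * G (s + b) * G s =
    F β * ∫ s : ℝ, G (s + a) * G s * CDW_e β (-s) := by
  have h1 : ∀ b : ℝ, CDW_e β b * ∫ s : ℝ, G (s + a) * G (s + b) * G s =
      ∫ s : ℝ, CDW_e β b * (G (s + a) * G (s + b) * G s) := fun b => (integral_const_mul _ _).symm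
  simp_rw [h1]
  rw [integral_integral_swap (CDW_int1 hG h0 β a)]
  rw [← integral_const_mul]
  congr 1
  funext s
  have h2 : (fun b : ℝ => CDW_e β b * (G (s + a) * G (s + b) * G s)) =
      fun b : ℝ => G (s + a) * G s * (CDW_e β b * G (s + b)) := by
    funext b
    ring
  rw [h2, integral_const_mul, CDW_shift hF]
  ring

include hG h0 in
/-- integrability in `a` -/
theorem CDW_ia (α β : ℝ) : Integrable (fun a : ℝ =>
    CDW_e α a * ∫ s : ℝ, G (s + a) * G s * CDW_e β (-s)) := by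
  have h := (CDW_int2 hG h0 α β).integral_prod_left
  refine h.congr (Filter.Eventually.of_forall fun a => ?_)
  exact integral_const_mul (CDW_e α a) (fun s : ℝ => G (s + a) * G s * CDW_e β (-s))

include hG h0 hF in
/-- the integral over `a` -/
theorem CDW_va (α β γ : ℝ) (h : α + β + γ = 0) :
    ∫ a : ℝ, CDW_e α a * ∫ s : ℝ, G (s + a) * G s * CDW_e β (-s) = F α * F γ := by
  have h1 : ∀ a : ℝ, CDW_e α a * ∫ s : ℝ, G (s + a) * G s * CDW_e β (-s) =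
      ∫ s : ℝ, CDW_e α a * (G (s + a) * G s * CDW_e β (-s)) := fun b => (integral_const_mul _ _).symm
  simp_rw [h1]
  rw [integral_integral_swap (CDW_int2 hG h0 α β), hF γ, ← integral_const_mul]
  congr 1
  funext s
  have h2 : (fun a : ℝ => CDW_e α a * (G (s + a) * G s * CDW_e β (-s))) =
      fun a : ℝ => G s * CDW_e β (-s) * (CDW_e α a * G (s + a)) := by
    funext b
    ring
  rw [h2, integral_const_mul, CDW_shift hF]
  have h3 : CDW_e β (-s) * CDW_e α (-s) = Complex.exp (-(((γ * s : ℝ) : ℂ) * I)) := by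
    unfold CDW_e
    rw [← Complex.exp_add]
    congr 1
    have h4 : γ = -α - β := by linarith
    rw [h4]
    push_cast
    ring
  rw [← h3]
  ring

end

theorem CDW_rho (J : ℕ) (F : ℤ → ℝ) (a b : ℝ) : rF J F (-a) * rF J F (a - b) * rF J F b =
    ∑ j ∈ IJ J, ∑ k ∈ IJ J, ∑ l ∈ IJ J, ((F j * F k * F l : ℝ) : ℂ) *
      (CDW_e ((j : ℝ) - k) a * CDW_e ((k : ℝ) - l) b) := by
  unfold rF
  rw [Finset.sum_mul_sum, Finset.sum_mul]
  refine Finset.sum_congr rfl fun t₁ _ => ?_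
  rw [Finset.sum_mul]
  refine Finset.sum_congr rfl fun t₂ _ => ?_
  rw [Finset.mul_sum]
  refine Finset.sum_congr rfl fun t₃ _ => ?_
  unfold CDW_e
  have e : Complex.exp ((((t₁ : ℝ) * -a : ℝ) : ℂ) * I) * Complex.exp ((((t₂ : ℝ) * (a - b) : ℝ) : ℂ) * I) *
      Complex.exp ((((t₃ : ℝ) * b : ℝ) : ℂ) * I) =
      Complex.exp (-(((((t₁ : ℝ) - t₂) * a : ℝ) : ℂ) * I)) *
        Complex.exp (-(((((t₂ : ℝ) - t₃) * b : ℝ) : ℂ) * I)) := by
    rw [← Complex.exp_add, ← Complex.exp_add, ← Complex.exp_add]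
    congr 1
    push_cast
    ring
  rw [← e]
  push_cast
  ring

theorem CDW : CDW_stmt := by
  intro G hG h0 J W F hF
  have e1 : ∀ a b : ℝ, rF J W (-a) * rF J W (a - b) * rF J W b * ∫ s : ℝ, G (s + a) * G (s + b) * G s =
      ∑ t₁ ∈ IJ J, ∑ t₂ ∈ IJ J, ∑ t₃ ∈ IJ J, ((W t₁ * W t₂ * W t₃ : ℝ) : ℂ) * (CDW_e ((t₁ : ℝ) - t₂) a *
        (CDW_e ((t₂ : ℝ) - t₃) b * ∫ s : ℝ, G (s + a) * G (s + b) * G s)) := by
    intro a b
    rw [CDW_rho, Finset.sum_mul]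
    refine Finset.sum_congr rfl fun t₁ _ => ?_
    rw [Finset.sum_mul]
    refine Finset.sum_congr rfl fun t₂ _ => ?_
    rw [Finset.sum_mul]
    refine Finset.sum_congr rfl fun t₃ _ => ?_
    ring
  have ib : ∀ (t₁ t₂ t₃ : ℤ) (a : ℝ), Integrable (fun b : ℝ => ((W t₁ * W t₂ * W t₃ : ℝ) : ℂ) *
      (CDW_e ((t₁ : ℝ) - t₂) a *
      (CDW_e ((t₂ : ℝ) - t₃) b * ∫ s : ℝ, G (s + a) * G (s + b) * G s))) := fun t₁ t₂ t₃ a =>
    ((CDW_ib hG h0 ((t₂ : ℝ) - t₃) a).const_mul _).const_mul _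
  have e2 : ∀ a : ℝ, ∫ b : ℝ, rF J W (-a) * rF J W (a - b) * rF J W b *
      ∫ s : ℝ, G (s + a) * G (s + b) * G s =
      ∑ t₁ ∈ IJ J, ∑ t₂ ∈ IJ J, ∑ t₃ ∈ IJ J, (((W t₁ * W t₂ * W t₃ : ℝ) : ℂ) * F ((t₂ : ℝ) - t₃)) *
        (CDW_e ((t₁ : ℝ) - t₂) a * ∫ s : ℝ, G (s + a) * G s * CDW_e ((t₂ : ℝ) - t₃) (-s)) := by
    intro a
    simp_rw [e1]
    rw [integral_finsetSum _ fun t₁ _ => integrable_finsetSum _ fun t₂ _ =>
      integrable_finsetSum _ fun t₃ _ => ib t₁ t₂ t₃ a]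
    refine Finset.sum_congr rfl fun t₁ _ => ?_
    rw [integral_finsetSum _ fun t₂ _ => integrable_finsetSum _ fun t₃ _ => ib t₁ t₂ t₃ a]
    refine Finset.sum_congr rfl fun t₂ _ => ?_
    rw [integral_finsetSum _ fun t₃ _ => ib t₁ t₂ t₃ a]
    refine Finset.sum_congr rfl fun t₃ _ => ?_
    rw [integral_const_mul, integral_const_mul, CDW_vb hG h0 hF]
    ring
  have ia : ∀ (t₁ t₂ t₃ : ℤ), Integrable (fun a : ℝ => (((W t₁ * W t₂ * W t₃ : ℝ) : ℂ) * F ((t₂ : ℝ) - t₃)) *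
        (CDW_e ((t₁ : ℝ) - t₂) a * ∫ s : ℝ, G (s + a) * G s * CDW_e ((t₂ : ℝ) - t₃) (-s))) := fun t₁ t₂ t₃ =>
    (CDW_ia hG h0 ((t₁ : ℝ) - t₂) ((t₂ : ℝ) - t₃)).const_mul _
  simp_rw [e2]
  rw [integral_finsetSum _ fun t₁ _ => integrable_finsetSum _ fun t₂ _ =>
    integrable_finsetSum _ fun t₃ _ => ia t₁ t₂ t₃]
  refine Finset.sum_congr rfl fun t₁ _ => ?_
  rw [integral_finsetSum _ fun t₂ _ => integrable_finsetSum _ fun t₃ _ => ia t₁ t₂ t₃]
  refine Finset.sum_congr rfl fun t₂ _ => ?_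
  rw [integral_finsetSum _ fun t₃ _ => ia t₁ t₂ t₃]
  refine Finset.sum_congr rfl fun t₃ _ => ?_
  rw [integral_const_mul, CDW_va hG h0 hF ((t₁ : ℝ) - t₂) ((t₂ : ℝ) - t₃) ((t₃ : ℝ) - t₁) (by ring)]
  ring

end Pool.Agent.LW
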