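import Pool.Agent.helper16.LW.Spec

/-!
# Project lw: QDW: the weighted quadratic identity
-/

set_option autoImplicit false

open Complex MeasureTheory

namespace Pool.Agent.LW

open Pool.Agent.ZD Pool.Agent.helper84.DM Pool.Agent.helper78.ED Pool.Agent.DH

/-- the integrand `H (y + a) * conj (H y)` has compact support -/
theorem QDW_supp (H : ℝ → ℂ) (hs : ∀ x, 5 < |x| → H x = 0) :
    HasCompactSupport (Function.uncurry fun a y : ℝ => H (y + a) * (starRingEnd ℂ) (H y)) := by
  refine HasCompactSupport.intro (K := Set.Icc (-10 : ℝ) 10 ×ˢ Set.Icc (-5 : ℝ) 5)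
    (isCompact_Icc.prod isCompact_Icc) ?_
  rintro ⟨a, y⟩ h
  simp only [Function.uncurry_apply_pair]
  by_cases hy : 5 < |y|
  · rw [hs y hy, map_zero, mul_zero]
  · by_cases hya : 5 < |y + a|
    · rw [hs _ hya, zero_mul]
    · exfalso
      apply h
      rw [not_lt, abs_le] at hy hya
      refine ⟨⟨?_, ?_⟩, ⟨hy.1, hy.2⟩⟩
      · show -10 ≤ a
        linarith [hy.1, hy.2, hya.1, hya.2]
      · show a ≤ 10
        linarith [hy.1, hy.2, hya.1, hya.2]

theorem QDW_cont (H : ℝ → ℂ) (hc : Continuous H) :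
    Continuous (Function.uncurry fun a y : ℝ => H (y + a) * (starRingEnd ℂ) (H y)) := by
  have h1 : Continuous fun p : ℝ × ℝ => H (p.2 + p.1) := hc.comp (by fun_prop)
  have h2 : Continuous fun p : ℝ × ℝ => (starRingEnd ℂ) (H p.2) :=
    Complex.continuous_conj.comp (hc.comp continuous_snd)
  exact h1.mul h2

theorem QDW_int (H : ℝ → ℂ) (hc : Continuous H) (hs : ∀ x, 5 < |x| → H x = 0) :
    Integrable (fun a : ℝ => ∫ y : ℝ, H (y + a) * (starRingEnd ℂ) (H y)) := by
  have h := (QDW_cont H hc).integrable_of_hasCompactSupport (μ := (volume : Measure ℝ).prod volume)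
    (QDW_supp H hs)
  exact h.integral_prod_left

/-- the autocorrelation -/
theorem QDW_auto (H : ℝ → ℂ) (hc : Continuous H) (hs : ∀ x, 5 < |x| → H x = 0) :
    ∫ a : ℝ, ∫ y : ℝ, H (y + a) * (starRingEnd ℂ) (H y) =
      ((‖∫ x : ℝ, H x‖ ^ 2 : ℝ) : ℂ) := by
  rw [integral_integral_swap_of_hasCompactSupport (QDW_cont H hc) (QDW_supp H hs)]
  have h1 : ∀ y : ℝ, ∫ a : ℝ, H (y + a) * (starRingEnd ℂ) (H y) =
      (∫ x : ℝ, H x) * (starRingEnd ℂ) (H y) := by
    intro y
    rw [integral_mul_const]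
    congr 1
    exact integral_add_left_eq_self (μ := (volume : Measure ℝ)) H y
  simp only [h1]
  rw [integral_const_mul, integral_conj, Complex.mul_conj']
  push_cast
  rfl

theorem QDW : QDW_stmt := by
  intro G hG hs J F u
  -- the twisted function
  have key : ∀ u : ℝ, ((‖∫ x : ℝ, G x * Complex.exp (-(((u * x : ℝ) : ℂ) * I))‖ ^ 2 : ℝ) : ℂ) =
      ∫ a : ℝ, Complex.exp (-(((u * a : ℝ) : ℂ) * I)) *
        ∫ y : ℝ, G (y + a) * (starRingEnd ℂ) (G y) ∧
      Integrable (fun a : ℝ => Complex.exp (-(((u * a : ℝ) : ℂ) * I)) *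
        ∫ y : ℝ, G (y + a) * (starRingEnd ℂ) (G y)) := by
    intro u
    set H : ℝ → ℂ := fun x => G x * Complex.exp (-(((u * x : ℝ) : ℂ) * I)) with hH
    have hHc : Continuous H := by
      refine hG.mul (Complex.continuous_exp.comp ?_)
      exact ((Complex.continuous_ofReal.comp (continuous_const.mul continuous_id)).mul
        continuous_const).neg
    have hHs : ∀ x, 5 < |x| → H x = 0 := fun x hx => by
      rw [hH]
      simp only
      rw [hs x hx, zero_mul]
    have h1 : ∀ a : ℝ, ∫ y : ℝ, H (y + a) * (starRingEnd ℂ) (H y) =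
        Complex.exp (-(((u * a : ℝ) : ℂ) * I)) * ∫ y : ℝ, G (y + a) * (starRingEnd ℂ) (G y) := by
      intro a
      rw [← integral_const_mul]
      congr 1
      funext y
      rw [hH]
      simp only [map_mul]
      rw [← Complex.exp_conj, map_neg, map_mul, Complex.conj_I, Complex.conj_ofReal]
      have h2 : Complex.exp (-(((u * a : ℝ) : ℂ) * I)) =
          Complex.exp (-(((u * (y + a) : ℝ) : ℂ) * I)) *
            Complex.exp (-(((u * y : ℝ) : ℂ) * -I)) := by
        rw [← Complex.exp_add]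
        congr 1
        push_cast
        ring
      rw [h2]
      ring
    refine ⟨?_, ?_⟩
    · rw [← QDW_auto H hHc hHs]
      congr 1
      funext a
      exact h1 a
    · have h3 := QDW_int H hHc hHs
      simp only [h1] at h3
      exact h3
  have hR : ∀ a : ℝ, Complex.exp (-(((u * a : ℝ) : ℂ) * I)) * rF J F a *
      ∫ y : ℝ, G (y + a) * (starRingEnd ℂ) (G y) =
      ∑ j ∈ IJ J, ((F j : ℝ) : ℂ) * (Complex.exp (-((((u - (j : ℝ)) * a : ℝ) : ℂ) * I)) *
        ∫ y : ℝ, G (y + a) * (starRingEnd ℂ) (G y)) := by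
    intro a
    unfold rF
    rw [Finset.mul_sum, Finset.sum_mul]
    refine Finset.sum_congr rfl fun j _ => ?_
    have e : Complex.exp (-((((u - (j : ℝ)) * a : ℝ) : ℂ) * I)) =
        Complex.exp (-(((u * a : ℝ) : ℂ) * I)) * Complex.exp ((((j : ℝ) * a : ℝ) : ℂ) * I) := by
      rw [← Complex.exp_add]
      congr 1
      push_cast
      ring
    rw [e]
    ring
  simp only [hR]
  have hI : ∀ j ∈ IJ J, Integrable (fun a : ℝ => ((F j : ℝ) : ℂ) * (Complex.exp (-((((u - (j : ℝ)) * a : ℝ) : ℂ) * I)) *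
        ∫ y : ℝ, G (y + a) * (starRingEnd ℂ) (G y))) := fun j _ => (key (u - (j : ℝ))).2.const_mul _
  rw [integral_finsetSum _ hI]
  push_cast
  refine Finset.sum_congr rfl fun j _ => ?_
  rw [integral_const_mul]
  have := (key (u - (j : ℝ))).1
  push_cast at this
  rw [this]

end Pool.Agent.LW
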