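import Pool.Agent.helper97.ZD.PHS
import Pool.Agent.helper24.ZD.SBO
import Pool.Agent.helper3.ZD.RD
import Pool.Agent.helper34.ZD.CHX
import Pool.Agent.helper93.ZD.GEC
import Pool.Agent.helper20.ZD.K2B
import Pool.Agent.helper90.ZD.K3B
import Pool.Agent.helper52.ZD.GEO
import Pool.Agent.helper57.ZD.IBU
import Pool.Agent.helper30.ZD.IBZ
import Pool.Agent.helper51.ZD.POI
import Pool.Agent.helper33.ZD.STR
import Pool.Agent.helper98.ZD.SPK
import Pool.Agent.helper87.ZD.BES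
import Pool.Agent.helper38.ZD.DVS
import Pool.Agent.helper63.ZD.BSB
import Pool.Agent.helper45.ZD.MVK
import Pool.Agent.helper1.LW.RF0
import Pool.Agent.helper12.LW.BNS
import Pool.Agent.helper13.LW.T2B
import Pool.Agent.helper15.LW.MTX
import Pool.Agent.helper16.LW.CDW
import Pool.Agent.helper16.LW.QDW
import Pool.Agent.helper18.LW.S1B
import Pool.Agent.helper23.LW.A2W
import Pool.Agent.helper33.LW.WTG
import Pool.Agent.helper43.LW.SYW
import Pool.Agent.helper46.LW.PB1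
import Pool.Agent.helper49.LW.H0B
import Pool.Agent.helper51.LW.TAI
import Pool.Agent.helper61.LW.DVC
import Pool.Agent.helper63.LW.ITG
import Pool.Agent.helper65.LW.LVS
import Pool.Agent.helper71.LW.FEJ
import Pool.Agent.helper76.LW.A1W
import Pool.Agent.helper77.LW.RHO
import Pool.Agent.helper78.LW.FIN
import Pool.Agent.helper82.LW.SPL
import Pool.Agent.helper89.LW.MVF
import Pool.Agent.helper91.LW.K1B
import Pool.Agent.helper92.LW.K1
import Pool.Agent.helper95.LW.ALG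
import Pool.Agent.helper95.LW.PSF
import Pool.Agent.helper95.LW.Q3B
import Pool.Agent.helper97.LW.KK
import Pool.Agent.helper98.LW.T3B
import Pool.Agent.helper99.LW.K1A
import Pool.Agent.helper99.LW.KSM
import Pool.Agent.helper99.LW.E1B
import Pool.Agent.helper99.LW.GAU
import Pool.Agent.helper8.LW.GRD

/-! # Project lw (MP_4467b5_nt): assembly -/

set_option autoImplicit false

namespace Pool.Agent.LW

open Pool.Agent.ZD

theorem y_phs : PHS_stmt := PHS
theorem y_gec : GEC_stmt := GEC y_phs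
theorem y_chx : CHX_stmt := CHX y_phs
theorem y_sbo : SBO_stmt := SBO
theorem y_rd : RD_stmt := RD y_sbo
theorem y_k2b : K2B_stmt := K2B y_chx y_phs y_rd y_sbo y_gec
theorem y_k3b : K3B_stmt := K3B y_chx y_phs y_rd y_sbo y_gec
theorem y_geo : GEO_stmt := GEO
theorem y_ibu : IBU_stmt := IBU y_sbo
theorem y_ibz : IBZ_stmt := IBZ y_sbo
theorem y_poi : POI_stmt := POI y_phs y_ibu
theorem y_str : STR_stmt := STR
theorem y_spk : SPK_stmt := SPK
theorem y_dvs : DVS_stmt := DVS BES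
theorem y_bsb : BSB_stmt := BSB y_chx y_phs y_ibu

theorem l_rf0 : RF0_stmt := RF0 FEJ
theorem l_mvf : MVF_stmt := MVF FEJ l_rf0 KSM
theorem l_k1a : K1A_stmt := K1A KK y_geo
theorem l_k1b : K1B_stmt := K1B y_geo
theorem l_dvc : DVC_stmt := DVC KSM
theorem l_k1 : K1_stmt := K1 FEJ l_rf0 QDW y_k2b y_gec l_dvc l_k1a l_k1b
theorem l_pb1 : PB1_stmt := PB1 y_poi y_chx y_ibu y_phs
theorem l_h0b : H0B_stmt := H0B y_ibz y_phs
theorem l_syw : SYW_stmt := SYW RHO
theorem l_a1w : A1W_stmt := A1W CDW y_gec y_k3b l_syw RHO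
theorem l_a2w : A2W_stmt := A2W l_a1w y_str y_spk y_dvs RHO
theorem l_mtx : MTX_stmt := MTX SPL l_h0b y_phs FEJ KSM
theorem l_s1b : S1B_stmt := S1B l_k1 l_pb1 l_mvf FEJ
theorem l_t2b : T2B_stmt := T2B l_s1b l_h0b KSM
theorem l_t3b : T3B_stmt := T3B l_a2w l_pb1 y_bsb
theorem l_psf : PSF_stmt := PSF l_rf0 FEJ y_phs l_h0b RHO
theorem l_bns : BNS_stmt := BNS l_h0b l_s1b l_mvf KSM
theorem l_q3b : Q3B_stmt := Q3B l_psf l_bns E1B RHO FEJ
theorem l_grd : GRD_stmt := GRD l_mtx l_t2b l_t3b l_q3b ALG FEJ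
theorem l_wtg : WTG_stmt := WTG l_grd GAU LVS (ITG FEJ) TAI

/-- The large values theorem. -/
theorem l_fin : FIN_stmt := FIN l_wtg MVK

end Pool.Agent.LW
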