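import Pool.Agent.helper84.ZD.SpecA

/-!
# Project lw (MP_4467b5_nt): a large values theorem for arbitrary coefficients

Theorem. `|a n| ≤ 1`, `N ≤ T`, `W` a set of points with distances `≥ 1` in an interval of length `T` with
`|∑ n ∈ (N, 2N], a n n^(-it)| ≥ V` on `W`. Then
`|W| ≤ C T^ε (N² V^(-2) + (T^(1/2) N³ + T^(6/7) N^(18/7) + T N²) V^(-4))`.

Module `XX` proves `theorem XX (hYY : YY_stmt) ... : XX_stmt` in the file `Pool/Agent/<seat>/LW/XX.lean`: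
`import Pool.Agent.helper16.LW.Spec` (plus the library files named in the docstring),
`set_option autoImplicit false`, `open Complex MeasureTheory`, `namespace Pool.Agent.LW`,
`open Pool.Agent.ZD Pool.Agent.helper84.DM Pool.Agent.helper78.ED Pool.Agent.DH`.
Any other statement of this file or of `helper84/ZD/SpecA.lean` (all proved there) may be a hypothesis (no
circles). Auxiliary lemmas are prefixed `XX_`. No `sorry`, no double quotes.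

Notation of `helper90/ZD/Defs.lean`, `helper84/ZD/SpecA.lean`, `helper15/DH/Defs.lean`:
`DP N a u = ∑ n ∈ Ioc N (2N), a n * n^(-iu)`, `Phi` (smooth, `1` on `[1,32]`, `0` outside `(1/2,64)`),
`BX X u = ∑ k ∈ Icc 1 ⌊64X⌋, Phi (k/X) k^(-iu)`, `ee x = e(x)`, `MM M` = nonzero integers `|m| ≤ M`,
`Bs X M u = ∫ GE X M x e^(-iux) dx = X ∑ m ∈ MM M, HH u (m X)`, `HH u ξ = ∫ Phi y y^(-iu) e(-ξ y) dy`,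
`kap x = 1/(1+x²)`, `d n` (real) = number of divisors.
All sums over the grid run over the integers `|j| < J`. `F j` are nonnegative weights.

Overview. `F j = w_j |D(j)|² 1[|D(j)| ≤ U]` with Fejér weights `w_j`, `m = ∑ F j |D(j)|²`, `X = N L`.
The matrix `H = (F_j^(1/2) BX X (j-k) F_k^(1/2))` is positive; `H = O + D₀`, `D₀` from the zero frequency.
SPL, MTX: `L m³ ≤ 12 τ N³ (|tr O³| + |tr O² D₀|)`. T2B and T3B bound the traces; the third moment of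
`ρ_F(x) = ∑ F j e^(ijx)` is bounded by `∫ |ρ_F|² |ρ_F0| + ...` and the weights of `ρ_F0` are explicit.
-/

set_option autoImplicit false

open Complex MeasureTheory
open scoped ComplexOrder

namespace Pool.Agent.LW

open Pool.Agent.ZD Pool.Agent.helper84.DM Pool.Agent.helper78.ED Pool.Agent.DH

/-! ## Definitions -/

/-- The integers `|j| < J`. -/
noncomputable def IJ (J : ℕ) : Finset ℤ := Finset.Ioo (-(J : ℤ)) J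

/-- The Fejér weights `1 - |j|/J`. -/
noncomputable def wj (J : ℕ) (j : ℤ) : ℝ := 1 - |(j : ℝ)| / J

/-- The Fejér kernel `∑ w_j cos (j x)`. -/
noncomputable def Fej (J : ℕ) (x : ℝ) : ℝ := ∑ j ∈ IJ J, wj J j * Real.cos (j * x)

/-- `∑ F j e^(ijx)`. -/
noncomputable def rF (J : ℕ) (F : ℤ → ℝ) (x : ℝ) : ℂ :=
  ∑ j ∈ IJ J, ((F j : ℝ) : ℂ) * Complex.exp ((((j : ℝ) * x : ℝ) : ℂ) * I)

/-- The weights `w_j |D(j)|²`. -/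
noncomputable def F0 (J N : ℕ) (a : ℕ → ℂ) (j : ℤ) : ℝ := wj J j * ‖DP N a (j : ℝ)‖ ^ 2

/-- The truncated weights `w_j |D(j)|² 1[|D(j)| ≤ U]`. -/
noncomputable def FU (J N : ℕ) (a : ℕ → ℂ) (U : ℝ) (j : ℤ) : ℝ :=
  if ‖DP N a (j : ℝ)‖ ≤ U then F0 J N a j else 0

/-- `∑ w_j |D(j)|⁴ 1[|D(j)| ≤ U]`. -/
noncomputable def mF (J N : ℕ) (a : ℕ → ℂ) (U : ℝ) : ℝ :=
  ∑ j ∈ IJ J, FU J N a U j * ‖DP N a (j : ℝ)‖ ^ 2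

/-- The coefficients are bounded by `1`. -/
def Co (N : ℕ) (a : ℕ → ℂ) : Prop := ∀ n ∈ Finset.Ioc N (2 * N), ‖a n‖ ≤ 1

/-- The term of frequency `0` of `BX X u` in the Poisson formula: `X^(1-iu) ∫ Phi y y^(-iu) dy`. -/
noncomputable def h0 (X u : ℝ) : ℂ :=
  Complex.exp (-(((u * Real.log X : ℝ) : ℂ) * I)) * ((X : ℂ) * HH u 0)

/-- The other terms. -/
noncomputable def B1 (X u : ℝ) : ℂ := BX X u - h0 X u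

/-- `tr O³`. -/
noncomputable def T3 (J : ℕ) (F : ℤ → ℝ) (X : ℝ) : ℂ := ∑ j ∈ IJ J, ∑ k ∈ IJ J, ∑ l ∈ IJ J,
  ((F j * F k * F l : ℝ) : ℂ) * (B1 X ((j : ℝ) - k) * B1 X ((k : ℝ) - l) * B1 X ((l : ℝ) - j))

/-- `tr O² D₀`. -/
noncomputable def T2 (J : ℕ) (F : ℤ → ℝ) (X : ℝ) : ℂ := ∑ j ∈ IJ J, ∑ k ∈ IJ J, ∑ l ∈ IJ J,
  ((F j * F k * F l : ℝ) : ℂ) * (B1 X ((j : ℝ) - k) * B1 X ((k : ℝ) - l) * h0 X ((l : ℝ) - j))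

/-- `T^(1/2) N³ + T^(6/7) N^(18/7)`. -/
noncomputable def BB (T N : ℝ) : ℝ := T ^ (1 / 2 : ℝ) * N ^ 3 + T ^ (6 / 7 : ℝ) * N ^ (18 / 7 : ℝ)

/-! ## 1. The Fejér kernel, trigonometric sums -/

/-- **FEJ** (medium). uses: nothing.
Proof. (a) `wj` is even, so the sum of `w_j e^(ijx)` is real. With `z = e^(ix)`,
`J ∑ w_j z^j = ∑ s s' ∈ range J, z^(s - s') = ‖∑ s ∈ range J, z^s‖²` (the difference `j` occurs `J - |j|` times), so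
`0 ≤ Fej J x ≤ J`. (b) For `0 < |x| ≤ 57/10` the geometric sum gives `‖∑ z^s‖ ≤ 2/|1-z| = 1/|sin (x/2)|` and
`|sin (x/2)| ≥ |x|/100` (`sin` is concave on `[0, π]`, `sin 2.85 = sin (π - 2.85) ≥ 0.25`, `x/2 ≤ 2.85`), hence
`Fej J x ≤ J min (1, (100/(J x))²) ≤ C J kap (J x)` with `C = 10001`. (c) is clear. -/
def FEJ_stmt : Prop := (∀ (J : ℕ) (x : ℝ), 1 ≤ J →
    ∑ j ∈ IJ J, ((wj J j : ℝ) : ℂ) * Complex.exp ((((j : ℝ) * x : ℝ) : ℂ) * I) = ((Fej J x : ℝ) : ℂ) ∧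
    0 ≤ Fej J x ∧ Fej J x ≤ J ∧ Fej J (-x) = Fej J x) ∧
  (∀ (J : ℕ) (j : ℤ), j ∈ IJ J → 0 ≤ wj J j ∧ wj J j ≤ 1) ∧
  ∃ C : ℝ, 0 < C ∧ ∀ (J : ℕ) (x : ℝ), 1 ≤ J → |x| ≤ 57 / 10 → Fej J x ≤ C * J * kap (J * x)

/-- **RHO** (medium). uses: nothing.
Proof. Parseval: multiply out, `∫ x in -π..π, e^(i(j-l)x) = 2π` or `0`. The last one: `‖rF‖^p` has the period
`2π` (the `j` are integers), is `≥ 0`, and `[-5, 5] ⊆ [-2π, 2π]` which is two periods. -/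
def RHO_stmt : Prop := ∀ (J : ℕ) (F : ℤ → ℝ), Continuous (rF J F) ∧ (∀ x, ‖rF J F (-x)‖ = ‖rF J F x‖) ∧
  (∀ x, ‖rF J F x‖ ≤ ∑ j ∈ IJ J, |F j|) ∧
  (∫ x in (-Real.pi)..Real.pi, ‖rF J F x‖ ^ 2 = 2 * Real.pi * ∑ j ∈ IJ J, F j ^ 2) ∧
  ∀ p : ℕ, ∫ x in (-5 : ℝ)..5, ‖rF J F x‖ ^ p ≤ 2 * ∫ x in (-Real.pi)..Real.pi, ‖rF J F x‖ ^ p

/-- **KK** (short/medium). uses: KAPF_stmt (or a direct computation of `∫ kap`).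
Proof. `x = J(a-z)`, `r = K/J ≤ 1`, `y = K(a-z')`. `1 + K²(z-z')² ≤ 2(1 + r²x²) + 2(1 + y²)`, and
`(1 + r²x²) kap x ≤ r² + kap x`; so `kap x kap y (1 + K²(z-z')²) ≤ 2 kap y (r² + kap x) + 2 kap x ≤ 4 kap x + 2 r² kap y`.
Integrate over the line (`∫ kap (J(a-z)) da = π/J`, `∫ kap (K(a-z')) da = π/K`): `J (4π/J + 2 r² π/K) ≤ 6π ≤ 20`. -/
def KK_stmt : Prop := ∀ J K z z' : ℝ, 0 < K → K ≤ J →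
  J * ∫ a in (-5 : ℝ)..5, kap (J * (a - z)) * kap (K * (a - z')) ≤ 20 * kap (K * (z - z'))

/-- **KSM** (short). uses: nothing. `∑_(k ≠ 0) 1/k² = π²/3 ≤ 4`; for the second one compare with
`∫ 1/(1+c²x²) dx = π/c` (each `k ≠ 0` with the interval of length `1` next to it towards `0`). -/
def KSM_stmt : Prop := ∀ (c : ℝ) (S : Finset ℤ), 0 < c →
  ∑ k ∈ S, kap (c * k) ≤ 1 + 4 / c ^ 2 ∧ ∑ k ∈ S, kap (c * k) ≤ 1 + 4 / c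

/-- **RF0** (medium). uses: FEJ_stmt. The majorant of `ρ_F0`.
Proof. `n^(-iu) = e^(-iu log n)`, so `‖DP N a j‖² = ∑ n n', a n conj (a n') e^(-ij (log n - log n'))`; insert, sum
over `j` with FEJ (a): `rF J (F0 J N a) x = ∑ n n', a n conj (a n') Fej J (x - (log n - log n'))`, and `Fej ≥ 0`. -/
def RF0_stmt : Prop := ∀ (J N : ℕ) (a : ℕ → ℂ) (x : ℝ), 1 ≤ J → Co N a →
  ‖rF J (F0 J N a) x‖ ≤ ∑ n ∈ Finset.Ioc N (2 * N), ∑ n' ∈ Finset.Ioc N (2 * N),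
    Fej J (x - (Real.log n - Real.log n'))

/-- **MVF** (short/medium). uses: FEJ_stmt, RF0_stmt, KSM_stmt. Mean value.
Proof. `rF J F 0 = ∑ F j` and `F0 ≥ 0`. RF0 with `x = 0` and FEJ (b) (`|log n - log n'| ≤ log 2`):
`∑ F0 ≤ C J ∑ n n', kap (J (log n - log n'))`, `|log n - log n'| ≥ |n - n'|/(2N)`; for fixed `n` KSM with
`c = J/(2N) ≥ 1/2` bounds the sum over `n'` by `17`. -/
def MVF_stmt : Prop := ∃ C : ℝ, 0 < C ∧ ∀ (J N : ℕ) (a : ℕ → ℂ), 1 ≤ N → N ≤ J → Co N a →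
  ∑ j ∈ IJ J, F0 J N a j ≤ C * J * N

/-! ## 2. The quadratic sum with explicit weights (K1) -/

/-- **QDW** (medium). uses: nothing. Copy of `Pool/Agent/helper1/ZD/QDI.lean` with weights.
Proof. `‖b(v)‖² = ∫ ∫ G x conj (G y) e^(-iv(x-y))`, `v = u - j`, `x = y + a`:
`= ∫ e^(-iua) e^(ija) ∫ G (y+a) conj (G y)`; sum over `j`. -/
def QDW_stmt : Prop := ∀ (G : ℝ → ℂ), Continuous G → (∀ x, 5 < |x| → G x = 0) →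
  ∀ (J : ℕ) (F : ℤ → ℝ) (u : ℝ),
  ((∑ j ∈ IJ J, F j * ‖∫ x : ℝ, G x * Complex.exp (-((((u - (j : ℝ)) * x : ℝ) : ℂ) * I))‖ ^ 2 : ℝ) : ℂ) =
    ∫ a : ℝ, Complex.exp (-(((u * a : ℝ) : ℂ) * I)) * rF J F a *
      ∫ y : ℝ, G (y + a) * (starRingEnd ℂ) (G y)

/-- **DVC** (medium). uses: KSM_stmt. Divisor sum.
Proof. For fixed `(n, m)` (`N M` pairs) and every integer `k` the number of `(n', m')` with `n m - n' m' = k` is at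
most `d (n m - k) ≤ D` (`1 ≤ n m - k = n' m' ≤ 2 N M`; `n'` divides it and determines `m'`). KSM. -/
def DVC_stmt : Prop := ∀ (N M : ℕ) (c D : ℝ), 0 < c → 0 ≤ D →
  (∀ k : ℕ, 1 ≤ k → k ≤ 2 * N * M → d k ≤ D) →
  ∑ n ∈ Finset.Ioc N (2 * N), ∑ n' ∈ Finset.Ioc N (2 * N), ∑ m ∈ Finset.Icc 1 M, ∑ m' ∈ Finset.Icc 1 M,
    kap (c * ((n : ℝ) * m - n' * m')) ≤ N * M * D * (1 + 4 / c ^ 2)

/-- **K1A** (medium). uses: KK_stmt, GEO_stmt. A pair `(m, m')` of comparable size.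
Proof. `h = min m m'`, `z = log n - log n'`, `z' = log m' - log m`, `K = κ X e^(-5) h ≤ κ X M ≤ J`. GEO (1):
`X |m e^a - m'| ≥ X e^(-5) h |a - z'| ≥ K |a - z'|` for `|a| ≤ 5`, and `kap` is decreasing in the absolute value. KK:
the left side is at most `20 kap (K (z - z'))`. Finally `z - z' = log (n m) - log (n' m')` and
`|log A - log B| ≥ |A - B|/max A B`, `max ≤ 2 N max m m' ≤ 1024 N h`, `N ≤ X`, so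
`K |z - z'| ≥ κ e^(-5) |n m - n' m'|/1024`. -/
def K1A_stmt : Prop := ∀ (J N M m m' n n' : ℕ) (X κ : ℝ), 1 ≤ N → (N : ℝ) ≤ X → 1 ≤ J → 0 < κ → κ ≤ 1 →
  κ * (X * M) ≤ J → 1 ≤ m → m ≤ M → 1 ≤ m' → m' ≤ M → m < 512 * m' → m' < 512 * m →
  N < n → n ≤ 2 * N → N < n' → n' ≤ 2 * N →
  (J : ℝ) * ∫ a in (-5 : ℝ)..5, kap (J * (a - (Real.log n - Real.log n'))) *
      kap (X * ((m : ℝ) * Real.exp a - m')) ≤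
    20 * kap (Real.exp (-5) * κ / 1024 * ((n : ℝ) * m - n' * m'))

/-- **K1B** (medium). uses: GEO_stmt, KSM_stmt (or a direct bound). The other pairs.
Proof. By GEO (2), (3) `|m e^a ∓ m'| ≥ e^(-5)/4 (m + m')`, so `kap (X ...) ≤ 16 e^10/(X² (m+m')²)`;
`∑ m m' ≤ M, (m+m')^(-2) ≤ ∑ m, 1/m ≤ 1 + log M`. (In the first sum `m, m'` are not comparable.) -/
def K1B_stmt : Prop := ∃ C : ℝ, 0 < C ∧ ∀ (X a : ℝ) (M : ℕ), 0 < X → |a| ≤ 5 → 1 ≤ M →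
  X ^ 2 * ∑ m ∈ Finset.Icc 1 M, ∑ m' ∈ Finset.Icc 1 M,
    ((if m < 512 * m' ∧ m' < 512 * m then 0 else kap (X * ((m : ℝ) * Real.exp a - m'))) +
      kap (X * ((m : ℝ) * Real.exp a + m'))) ≤ C * (1 + Real.log M)

/-- **K1** (medium/long). uses: FEJ_stmt, RF0_stmt, QDW_stmt, K2B_stmt, GEC_stmt, DVC_stmt, K1A_stmt, K1B_stmt;
library: `divisor_bound` (`Pool.Agent.helper59.DM.DV`). The quadratic sum with the weights `F0`.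
Proof. `M = 0`: `Bs = 0`. QDW with `G = GE X M`, K2B (the kernel vanishes for `|a| > 5`):
the left side is at most `C X² ∑ (m, m') ∈ (MM M)², ∫_(-5)^5 ‖rF J F0 a‖ kap (X (m e^a - m'))`. The four sign patterns
give twice the sums over `m, m' ∈ Icc 1 M` of the kernels with `m e^a - m'` and `m e^a + m'` (`kap` even). RF0 and
FEJ (b) (`|a - (log n - log n')| ≤ 5 + log 2 ≤ 57/10`): `‖rF J F0 a‖ ≤ C J ∑ n n', kap (J (a - (log n - log n')))`.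
Comparable pairs: K1A with `κ = J^(-δ)` (`κ X M ≤ J`), DVC with `c = e^(-5) κ/1024`, `D = C (2NM)^ε' ≤ C' J^(ε/2)`
(`N M ≤ X M ≤ J^(1+δ) ≤ J²`): at most `C X² N M D J^(2δ) ≤ C X N J^(1+δ) J^(ε/2) J^(2δ)`. The others: K1B and
`J ∫ kap (J (a - z)) da ≤ π` for the `N²` pairs `(n, n')`: at most `C N² (1 + log M) ≤ C N X J^(ε)` (`1 ≤ J`;
`log M ≤ C J^ε`). -/
def K1_stmt : Prop := ∀ ε δ : ℝ, 0 < ε → 0 < δ → δ ≤ 1 → ∃ C : ℝ, 0 < C ∧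
  ∀ (J N M : ℕ) (X u : ℝ) (a : ℕ → ℂ), 1 ≤ N → N ≤ J → (N : ℝ) ≤ X → (M : ℝ) * X ≤ (J : ℝ) ^ (1 + δ) →
  Co N a → ∑ j ∈ IJ J, F0 J N a j * ‖Bs X M (u - j)‖ ^ 2 ≤ C * (J : ℝ) ^ (ε + 4 * δ) * (X * J * N)

/-! ## 3. Poisson summation -/

/-- **PB1** (medium). uses: POI_stmt, CHX_stmt, IBU_stmt, PHS_stmt. Poisson formula without the frequency `0`, also
for small `u`. Compare `Pool/Agent/helper60/ZD/PR2.lean`.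
Proof. By POI and CHX the difference is `exp(...) X ∑_(|m| > M) HH u (m X)`. IBU with the exponent `p`,
`p ≥ 2`, `p δ ≥ A + 1 + δ`: `‖HH u (m X)‖ ≤ C (1+|u|)^p (|m| X)^(-p) ≤ C (3J)^p (|m| X)^(-p)`, and
`∑_(m ≥ M+1) m^(-p) ≤ 2 (M+1)^(1-p)`; total `≤ 4 C 3^p J^p (X (M+1))^(1-p) ≤ C' J^(p + (1+δ)(1-p)) ≤ C' J^(-A)`. -/
def PB1_stmt : Prop := ∀ A δ : ℝ, 0 < A → 0 < δ → ∃ C : ℝ, 0 < C ∧ ∀ (J M : ℕ) (X u : ℝ), 1 ≤ J → 1 ≤ X →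
  |u| ≤ 2 * J → (J : ℝ) ^ (1 + δ) ≤ X * ((M : ℝ) + 1) →
    ‖B1 X u - Complex.exp (-(((u * Real.log X : ℝ) : ℂ) * I)) * Bs X M u‖ ≤ C * (J : ℝ) ^ (-A)

/-- **H0B** (medium). uses: IBZ_stmt, PHS_stmt. The frequency `0`.
Proof. (1) `HH u 0 = ∫ Phi y y^(-iu) dy` (`ee 0 = 1`), IBZ with `j = 0` and `j = 2`. (2) conjugate the integral.
(3) `h0 X (j-k) = X ∫ Phi y (X y)^(-ij) conj ((X y)^(-ik)) dy` (for `y > 0`; `Phi y = 0` otherwise), so the double sum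
is `X ∫ Phi y ‖∑ j, conj (x j) (X y)^(-ij)‖² dy ≥ 0`. (4) `BX` is a sum with real weights. -/
def H0B_stmt : Prop := (∃ C : ℝ, 0 < C ∧ ∀ X u : ℝ, 0 ≤ X → ‖h0 X u‖ ≤ C * X * kap u) ∧
  (∀ X u : ℝ, h0 X (-u) = (starRingEnd ℂ) (h0 X u)) ∧
  (∀ X : ℝ, 0 < X → ∀ (S : Finset ℤ) (x : ℤ → ℂ),
    0 ≤ (∑ j ∈ S, ∑ k ∈ S, (starRingEnd ℂ) (x j) * x k * h0 X ((j : ℝ) - k)).re) ∧
  ∀ X u : ℝ, BX X (-u) = (starRingEnd ℂ) (BX X u)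

/-! ## 4. The cubic sum with weights -/

/-- **CDW** (medium). uses: nothing. Copy of `Pool/Agent/helper77/ZD/CDI.lean` with weights. -/
def CDW_stmt : Prop := ∀ (G : ℝ → ℂ), Continuous G → (∀ x, 5 < |x| → G x = 0) → ∀ (J : ℕ) (F : ℤ → ℝ),
  ∀ B : ℝ → ℂ, (∀ u, B u = ∫ x : ℝ, G x * Complex.exp (-(((u * x : ℝ) : ℂ) * I))) →
  ∑ j ∈ IJ J, ∑ k ∈ IJ J, ∑ l ∈ IJ J, ((F j * F k * F l : ℝ) : ℂ) *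
      (B ((j : ℝ) - k) * B ((k : ℝ) - l) * B ((l : ℝ) - j)) =
    ∫ a : ℝ, ∫ b : ℝ, rF J F (-a) * rF J F (a - b) * rF J F b *
      ∫ s : ℝ, G (s + a) * G (s + b) * G s

/-- The double integral of the strip lemma, with weights. -/
noncomputable def JW (J : ℕ) (F : ℤ → ℝ) (X : ℝ) (l₁ l₂ l₃ : ℤ) : ℝ :=
  ∫ a in (-5 : ℝ)..5, ∫ b in (-5 : ℝ)..5, ‖rF J F a‖ ^ (3 / 2 : ℝ) * ‖rF J F b‖ ^ (3 / 2 : ℝ) *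
    kap (X * ((l₁ : ℝ) * Real.exp a + (l₂ : ℝ) * Real.exp b + l₃))

/-- **SYW** (medium). uses: RHO_stmt. Copy of `Pool/Agent/helper91/ZD/SYM.lean` (only the continuity of `rho` and
`‖rho (-x)‖ = ‖rho x‖` are used there). -/
def SYW_stmt : Prop := ∀ (J : ℕ) (F : ℤ → ℝ) (X : ℝ) (m₁ m₂ m₃ : ℤ), 0 ≤ X →
  ∫ a in (-5 : ℝ)..5, ∫ b in (-5 : ℝ)..5, (if |a - b| ≤ 5 then
    ‖rF J F a‖ * ‖rF J F b‖ * ‖rF J F (a - b)‖ *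
      kap (X * ((m₁ : ℝ) * Real.exp a + (m₂ : ℝ) * Real.exp b + m₃)) else 0)
    ≤ Real.exp 10 * (JW J F X m₁ m₂ m₃ + JW J F X m₁ m₃ m₂ + JW J F X m₂ m₃ m₁)

/-- **A1W** (medium). uses: CDW_stmt, GEC_stmt, K3B_stmt, SYW_stmt, RHO_stmt. Copy of
`Pool/Agent/helper40/ZD/AL1.lean`. -/
def A1W_stmt : Prop := ∃ C : ℝ, 0 < C ∧ ∀ (J : ℕ) (F : ℤ → ℝ) (X : ℝ) (M : ℕ), 0 ≤ X →
  ‖∑ j ∈ IJ J, ∑ k ∈ IJ J, ∑ l ∈ IJ J, ((F j * F k * F l : ℝ) : ℂ) *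
      (Bs X M ((j : ℝ) - k) * Bs X M ((k : ℝ) - l) * Bs X M ((l : ℝ) - j))‖
    ≤ C * X ^ 3 * ∑ m₁ ∈ MM M, ∑ m₂ ∈ MM M, ∑ m₃ ∈ MM M, JW J F X m₁ m₂ m₃

/-- **A2W** (medium). uses: A1W_stmt, STR_stmt, SPK_stmt, DVS_stmt, RHO_stmt. Copy of
`Pool/Agent/helper23/ZD/AL2.lean`; instead of QZ0 use RHO: `∫_(-5)^5 ‖rF‖² ≤ 4π ∑ F j²`. -/
def A2W_stmt : Prop := ∀ ε : ℝ, 0 < ε → ∃ C : ℝ, 0 < C ∧ ∀ (J : ℕ) (F : ℤ → ℝ) (X : ℝ) (M : ℕ),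
  1 ≤ X → 1 ≤ M →
  ‖∑ j ∈ IJ J, ∑ k ∈ IJ J, ∑ l ∈ IJ J, ((F j * F k * F l : ℝ) : ℂ) *
      (Bs X M ((j : ℝ) - k) * Bs X M ((k : ℝ) - l) * Bs X M ((l : ℝ) - j))‖
    ≤ C * (M * X) ^ ε * X ^ 2 * ((M : ℝ) ^ 2 * (∑ j ∈ IJ J, F j ^ 2) ^ (3 / 2 : ℝ) +
      M * ∫ x in (-5 : ℝ)..5, ‖rF J F x‖ ^ 3)

/-! ## 5. Linear algebra -/

/-- **SPL** (medium/long). uses: nothing. The spectral lemma.
Proof. `O = H - D` is Hermitian; orthonormal eigenvectors `g_j`, eigenvalues `ω_j` (`IsHermitian.eigenvectorBasis`).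
`P_j = ∑ l, ‖⟨v_l, g_j⟩‖² ≥ 0`, `∑_j P_j = L m` (Parseval), `∑_j ω_j P_j = ∑_l re (v_l* O v_l) ≥ (3/4) L lam m`. The `j`
with `ω_j < lam/2` contribute at most `(lam/2) L m`, so `∑_(ω_j ≥ lam/2) ω_j P_j ≥ L lam m/4`. By the last hypothesis
`P_j ≤ C₀ g_j* H g_j = C₀ (ω_j + g_j* D g_j) ≤ C₀ (ω_j + lam/4) ≤ (3/2) C₀ ω_j` for these `j`; so
`∑_(ω_j ≥ lam/2) ω_j² ≥ L lam m/(6 C₀)` and `∑_(ω_j ≥ lam/2) ω_j³ ≥ L lam² m/(12 C₀)`. On the other side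
`tr O³ = ∑ ω_j³`, `tr (O O D) = ∑ ω_j² g_j* D g_j`, where `g_j* D g_j ≥ 0`, and for `ω_j < 0`:
`0 ≤ g_j* H g_j = ω_j + g_j* D g_j`, so `ω_j³ + ω_j² g_j* D g_j ≥ 0`. (Compare `Pool/Agent/helper99/ZD/BS1.lean`.) -/
def SPL_stmt : Prop := ∀ (ι : Type) [Fintype ι] [DecidableEq ι] (H D : Matrix ι ι ℂ) (L : ℕ)
  (v : ℕ → ι → ℂ) (m lam C₀ : ℝ), H.PosSemidef → D.PosSemidef → 0 ≤ lam → 0 < C₀ →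
  (∀ x : ι → ℂ, (∑ i, ∑ j, (starRingEnd ℂ) (x i) * D i j * x j).re ≤ lam / 4 * ∑ i, ‖x i‖ ^ 2) →
  (∀ l ∈ Finset.range L, ∑ i, ‖v l i‖ ^ 2 = m) →
  (∀ l ∈ Finset.range L, lam * m ≤ (∑ i, ∑ j, (starRingEnd ℂ) (v l i) * H i j * v l j).re) →
  (∀ x : ι → ℂ, ∑ l ∈ Finset.range L, ‖∑ i, (starRingEnd ℂ) (v l i) * x i‖ ^ 2 ≤
    C₀ * (∑ i, ∑ j, (starRingEnd ℂ) (x i) * H i j * x j).re) →
  L * lam ^ 2 * m ≤ 12 * C₀ * (((H - D) * (H - D) * (H - D)).trace.re + ((H - D) * (H - D) * D).trace.re)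

/-- **MTX** (long). uses: SPL_stmt, H0B_stmt, PHS_stmt, FEJ_stmt. The matrix inequality.
Proof. `ι = ↥(IJ J)`, `F j = FU J N a U j`, `f_j = (F j)^(1/2)` (`0 ≤ F j ≤ U²`), `X = N L`,
`H j k = f_j BX X (j-k) f_k`, `D j k = f_j h0 X (j-k) f_k`, so `H - D = (f_j B1 X (j-k) f_k)` and the traces are
`T3`, `T2`. `H = ∑ k ∈ Icc 1 ⌊64X⌋, Phi (k/X) h_k h_k*`, `h_k j = f_j k^(-ij)`: positive semidefinite; `D` by H0B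
(2), (3). Schur: `x* D x ≤ U² ∑ ‖h0 X (j-k)‖ ‖x j‖ ‖x k‖ ≤ U² C_h X (∑_k kap k) ∑ ‖x j‖² ≤ 5 C_h U² X ∑ ‖x j‖²`
(KSM-type sum), which is `≤ lam/4` for `lam = m/N`, `m = mF J N a U > 20 C_h N² L U²`; `C₁ = 20 C_h`.
`v_l j = f_j DP N a j (l')^(-ij)`, `l' = L + 1 + l`, `l ∈ range L`: `∑ ‖v_l j‖² = m`, and `v_l = ∑ n, a n h_(n l')`
with `n l' ∈ (NL, 4NL]` where `Phi = 1`. Cauchy-Schwarz over `n` (`∑ ‖a n‖² ≤ N`):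
`‖⟨v_l, x⟩‖² ≤ N ∑ n, ‖⟨h_(n l'), x⟩‖² ≤ N x* H x` (for one `l` the `n l'` are distinct), for `x = v_l`:
`m² ≤ N v_l* H v_l`; and, summed over `l` (`k = n l'` has at most `d k ≤ τ` representations),
`∑_l ‖⟨v_l, x⟩‖² ≤ τ N x* H x`. SPL with `C₀ = τ N`: `L (m/N)² m ≤ 12 τ N (‖T3‖ + ‖T2‖)`. (`1 ≤ τ` because `d 1 = 1`.) -/
def MTX_stmt : Prop := ∃ C₁ : ℝ, 0 < C₁ ∧ ∀ (J N L : ℕ) (a : ℕ → ℂ) (U τ : ℝ), 1 ≤ J → 1 ≤ N → 1 ≤ L → 0 < U →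
  Co N a → (∀ k : ℕ, 1 ≤ k → k ≤ 4 * N * L → d k ≤ τ) →
  C₁ * (N : ℝ) ^ 2 * L * U ^ 2 < mF J N a U →
  L * mF J N a U ^ 3 ≤ 12 * τ * (N : ℝ) ^ 3 *
    (‖T3 J (FU J N a U) ((N : ℝ) * L)‖ + ‖T2 J (FU J N a U) ((N : ℝ) * L)‖)

/-! ## 6. Bounds for the traces -/

/-- **S1B** (short/medium). uses: K1_stmt, PB1_stmt, MVF_stmt, FEJ_stmt.
Proof. `δ = min 1 (ε/8)`, `M = ⌊J^(1+δ)/X⌋₊`: `M X ≤ J^(1+δ) ≤ X (M+1)`; `|u - k| ≤ 2J`. PB1 with `A = 1`: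
`‖B1‖² ≤ 2 ‖Bs‖² + 2 C²`; K1 with `ε/2` and MVF (`∑ F0 ≤ C J N ≤ C X J N`). -/
def S1B_stmt : Prop := ∀ ε : ℝ, 0 < ε → ∃ C : ℝ, 0 < C ∧ ∀ (J N : ℕ) (X u : ℝ) (a : ℕ → ℂ), 1 ≤ N → N ≤ J →
  (N : ℝ) ≤ X → |u| ≤ J → Co N a →
  ∑ k ∈ IJ J, F0 J N a k * ‖B1 X (u - k)‖ ^ 2 ≤ C * (J : ℝ) ^ ε * (X * J * N)

/-- **T2B** (medium). uses: S1B_stmt, H0B_stmt, KSM_stmt.
Proof. `‖T2‖ ≤ ∑_j ∑_l F_j F_l ‖h0 X (l-j)‖ ∑_k F_k ‖B1 X (j-k)‖ ‖B1 X (k-l)‖`, `x y ≤ (x² + y²)/2`,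
`‖B1 X (k-l)‖ = ‖B1 X (l-k)‖` (H0B (2), (4)), and S1B (`F ≤ F0`) for `u = j, l`: the inner sum is at most
`S = C J^ε X J N`. `∑_j ∑_l F_j F_l ‖h0 X (l-j)‖ ≤ ∑_j ∑_l (F_j² + F_l²)/2 ‖h0‖ ≤ 5 C_h X ∑ F_j²`. -/
def T2B_stmt : Prop := ∀ ε : ℝ, 0 < ε → ∃ C : ℝ, 0 < C ∧ ∀ (J N : ℕ) (X : ℝ) (a : ℕ → ℂ) (F : ℤ → ℝ),
  1 ≤ N → N ≤ J → (N : ℝ) ≤ X → Co N a → (∀ j ∈ IJ J, 0 ≤ F j ∧ F j ≤ F0 J N a j) →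
  ‖T2 J F X‖ ≤ C * (J : ℝ) ^ ε * (X ^ 2 * J * N) * ∑ j ∈ IJ J, F j ^ 2

/-- **T3B** (medium). uses: A2W_stmt, PB1_stmt, BSB_stmt. Compare `Pool/Agent/helper70/ZD/CUBM.lean`.
Proof. `δ = min 1 (ε/8)`, `M = ⌊(2J)^(1+δ)/X⌋₊ ≥ 1`, `M X ≤ 4 J^(1+δ)`, `J^(1+δ) ≤ X (M+1)`. The phases
`exp (-(u log X) I)`, `u = j-k, k-l, l-j`, multiply to `1`; PB1 with `A = 20`, `‖Bs‖ ≤ 128 X M ≤ C J²` (BSB),
`‖B1‖ ≤ C J²`: the product of the three `B1` differs from the product of the three `Bs` by at most `C J^(4-20)`, and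
there are at most `8 J³` triples with weights `≤ J⁶`: total `≤ C`. A2W with the exponent `ε/8`:
`X² M² ≤ 16 J^(2+2δ)`, `X² M ≤ 4 X J^(1+δ)`, `(M X)^(ε/8) ≤ C J^(ε/4)`. -/
def T3B_stmt : Prop := ∀ ε : ℝ, 0 < ε → ∃ C : ℝ, 0 < C ∧ ∀ (J : ℕ) (X : ℝ) (F : ℤ → ℝ), 1 ≤ J → 1 ≤ X →
  X ≤ 2 * J → (∀ j ∈ IJ J, 0 ≤ F j ∧ F j ≤ (J : ℝ) ^ 2) →
  ‖T3 J F X‖ ≤ C * (J : ℝ) ^ ε * ((J : ℝ) ^ 2 * (∑ j ∈ IJ J, F j ^ 2) ^ (3 / 2 : ℝ) +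
    X * J * ∫ x in (-5 : ℝ)..5, ‖rF J F x‖ ^ 3) + C

/-! ## 7. The third moment -/

/-- **PSF** (medium). uses: RF0_stmt, FEJ_stmt, PHS_stmt, H0B_stmt, RHO_stmt. Comparison with an explicit kernel.
Proof. RF0, `Fej ≥ 0` and `Phi (n/N) = 1` for `n ∈ (N, 2N]`: `‖rF J F0 x‖ ≤ R x`,
`R x = ∑ k k' ∈ Icc 1 ⌊64N⌋, Phi (k/N) Phi (k'/N) Fej J (x - (log k - log k')) = ∑ q ∈ IJ J, w_q ‖BX N q‖² e^(iqx)`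
(FEJ (a)). Integrate against `‖rF J F x‖² = ∑ j l, F_j F_l e^(i(j-l)x)`: the result is
`2π ∑ j l, F_j F_l w_(l-j) ‖BX N (l-j)‖²` over the pairs with `|l-j| < J`, `w ≤ 1`, `‖BX N (-u)‖ = ‖BX N u‖`. -/
def PSF_stmt : Prop := ∀ (J N : ℕ) (a : ℕ → ℂ) (F : ℤ → ℝ), 1 ≤ J → 1 ≤ N → Co N a →
  (∀ j ∈ IJ J, 0 ≤ F j) →
  ∫ x in (-Real.pi)..Real.pi, ‖rF J F x‖ ^ 2 * ‖rF J (F0 J N a) x‖ ≤
    2 * Real.pi * ∑ j ∈ IJ J, ∑ l ∈ IJ J, F j * F l * ‖BX N ((j : ℝ) - l)‖ ^ 2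

/-- **BNS** (medium). uses: H0B_stmt, S1B_stmt, MVF_stmt, KSM_stmt.
Proof. `‖BX‖² ≤ 2 ‖h0‖² + 2 ‖B1‖²`. `‖h0 N u‖ ≤ C_h N kap u ≤ C_h N`, `∑_u kap u ≤ 5`: the first part is at most
`C N² ∑ F j²` (`F_j F_l ≤ (F_j² + F_l²)/2`). The second: `∑_j F_j ∑_l F_l ‖B1 N (j-l)‖² ≤ ∑_j F0 j · C J^ε N J N`
(S1B with `X = N`) and MVF. -/
def BNS_stmt : Prop := ∀ ε : ℝ, 0 < ε → ∃ C : ℝ, 0 < C ∧ ∀ (J N : ℕ) (a : ℕ → ℂ) (F : ℤ → ℝ), 1 ≤ N →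
  N ≤ J → Co N a → (∀ j ∈ IJ J, 0 ≤ F j ∧ F j ≤ F0 J N a j) →
  ∑ j ∈ IJ J, ∑ l ∈ IJ J, F j * F l * ‖BX N ((j : ℝ) - l)‖ ^ 2 ≤
    C * (J : ℝ) ^ ε * ((N : ℝ) ^ 2 * ∑ j ∈ IJ J, F j ^ 2 + (J : ℝ) ^ 2 * (N : ℝ) ^ 3)

/-- **E1B** (medium). uses: nothing; library: `Pool.Agent.Results.MP_4467b5_nt.LargeValues.result` (or
`Pool.Agent.LV.large_values`). The truncation error.
Proof. `‖DP‖ ≤ N`. Levels `U 2^i < ‖D(j)‖ ≤ U 2^(i+1)`, `i ≤ 2 log J + ...` (only `U 2^i < N` matter; `U² ≥ C N^(3/2) ≥ 1`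
so there are at most `2 + 2 log N ≤ C J^(ε/2)` levels). For one level `V' = U 2^i` apply the library theorem with
`T = 2J`, `W = {j + J}`, coefficients `a n n^(iJ)` (`n^(-i(j+J)) n^(iJ) = n^(-ij)`), `∑ ‖a n‖² ≤ N`, exponent `ε/2`:
the number of `j` is at most `C J^(ε/2) (N² V'^(-2) + J^(1/2) N³ V'^(-4))`, and `F0 ≤ ‖D‖² ≤ 4 V'²`, `V' ≥ U`. -/
def E1B_stmt : Prop := ∀ ε : ℝ, 0 < ε → ∃ C : ℝ, 0 < C ∧ ∀ (J N : ℕ) (a : ℕ → ℂ) (U : ℝ), 1 ≤ N → N ≤ J →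
  0 < U → Co N a → C * (J : ℝ) ^ ε * (N : ℝ) ^ (3 / 2 : ℝ) ≤ U ^ 2 →
  ∑ j ∈ IJ J, (F0 J N a j - FU J N a U j) ≤
    C * (J : ℝ) ^ ε * ((N : ℝ) ^ 2 + (J : ℝ) ^ (1 / 2 : ℝ) * (N : ℝ) ^ 3 / U ^ 2)

/-- **Q3B** (medium). uses: PSF_stmt, BNS_stmt, E1B_stmt, RHO_stmt, FEJ_stmt.
Proof. `F = FU J N a U`, `0 ≤ F ≤ F0`. `‖rF J F x‖ ≤ ‖rF J F0 x‖ + e₁`, `e₁ = ∑ (F0 - F)` (E1B). RHO with `p = 3`: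
`∫_(-5)^5 ‖rF J F‖³ ≤ 2 ∫_(-π)^π ‖rF J F‖² (‖rF J F0‖ + e₁)`, PSF, BNS and Parseval (RHO). -/
def Q3B_stmt : Prop := ∀ ε : ℝ, 0 < ε → ∃ C : ℝ, 0 < C ∧ ∀ (J N : ℕ) (a : ℕ → ℂ) (U : ℝ), 1 ≤ N → N ≤ J →
  0 < U → Co N a → C * (J : ℝ) ^ ε * (N : ℝ) ^ (3 / 2 : ℝ) ≤ U ^ 2 →
  ∫ x in (-5 : ℝ)..5, ‖rF J (FU J N a U) x‖ ^ 3 ≤
    C * (J : ℝ) ^ ε * (((N : ℝ) ^ 2 + (J : ℝ) ^ (1 / 2 : ℝ) * (N : ℝ) ^ 3 / U ^ 2) *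
      ∑ j ∈ IJ J, FU J N a U j ^ 2 + (J : ℝ) ^ 2 * (N : ℝ) ^ 3)

/-! ## 8. The grid theorem -/

/-- **ALG** (medium, real numbers). uses: nothing. `y = J^(5/7) N^(-6/7)`.
Proof. `m³ ≤ 6 (K N³/L) t` for one of the six terms `t` of the bracket (`X = N L`), so `m` is at most
(1) `(6K)^(1/2) N³ (L J)^(1/2)`; (2) `(6K)^(2/3) N² J^(4/3) L^(-2/3)`; (3) `(6K)^(1/2) N³ J^(1/2)`;
(4) `(6K N⁴ J^(3/2) N³/U²)^(1/2)`; (5) `(6K)^(1/3) N^(7/3) J`; (6) `(6K)^(1/3) N`. Now `L ≤ 2 max 1 y`: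
(1) `N³ (2J max 1 y)^(1/2) ≤ 2^(1/2) B` (`N³ J^(1/2) y^(1/2) = J^(6/7) N^(18/7)`); (2) `L ≥ y`:
`N² J^(4/3) y^(-2/3) = J^(6/7) N^(18/7)`; (4) `U² ≥ B/(N² L)`, so `m² ≤ 6K N⁹ J^(3/2) L/B` and
`N⁹ J^(3/2) L ≤ 2 B³`: for `y ≤ 1` since `B ≥ J^(1/2) N³`; for `y > 1`, i.e. `N < J^(5/6)`,
`N⁹ J^(3/2) y = J^(31/14) N^(57/7) ≤ J^(18/7) N^(54/7) ≤ B³`; (5) `N^(7/3) J ≤ J^(6/7) N^(18/7)` since `N ≥ J^(3/5)`.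
All are `≤ 12 K B` (`K ≥ 1`). -/
def ALG_stmt : Prop := ∀ (J N m K U L : ℝ), 1 ≤ J → J ^ (3 / 5 : ℝ) ≤ N → N ≤ J → 1 ≤ K → 0 ≤ m → 0 < U →
  1 ≤ L → J ^ (5 / 7 : ℝ) * N ^ (-(6 / 7 : ℝ)) ≤ L → L ≤ 1 + J ^ (5 / 7 : ℝ) * N ^ (-(6 / 7 : ℝ)) →
  BB J N ≤ N ^ 2 * L * U ^ 2 →
  L * m ^ 3 ≤ K * N ^ 3 * ((N * L) ^ 2 * J * N * m + J ^ 2 * m ^ (3 / 2 : ℝ) +
    N * L * J * ((N ^ 2 + J ^ (1 / 2 : ℝ) * N ^ 3 / U ^ 2) * m + J ^ 2 * N ^ 3) + 1) →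
  m ≤ 12 * K * BB J N

/-- **GRD** (medium/long). uses: MTX_stmt, T2B_stmt, T3B_stmt, Q3B_stmt, ALG_stmt, FEJ_stmt; library:
`divisor_bound`. The grid theorem.
Proof. `y = J^(5/7) N^(-6/7)`, `L = max 1 ⌈y⌉₊ ≤ 1 + y`, `B = BB J N`, `U² = K₁ J^ε B/(N² L)`,
`K₁ = 1 + 2 K₀ + 2 C_Q` (`C_Q` from Q3B with `ε/4`). `B/(N² L) ≥ N^(3/2)/4`: `L ≤ 2 max 1 y`, and
`J^(1/2) N³/(2 N²) ≥ N^(3/2)/2`, `J^(6/7) N^(18/7)/(2 N² y) = J^(1/7) N^(10/7)/2 ≥ N^(3/2)/2` as `N ≤ J` (take `K₁` larger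
if necessary): so `U² ≥ K₀ J^ε N^(3/2)` and the condition of Q3B holds. `m = mF J N a U`. If `m ≤ C₁ N² L U²` then
`m ≤ C₁ K₁ J^ε B`. Otherwise MTX with `τ = C (4NL)^ε' ≤ C J^(ε/4)` (`N L ≤ 2 J` since `N y = J^(5/7) N^(1/7) ≤ J`;
more precisely `N L ≤ N + N y ≤ 2 J`), `X = N L ≤ 2J`, `∑ FU² ≤ m` (`FU ≤ ‖D‖²`), T2B, T3B (`FU ≤ N² ≤ J²`), Q3B with
exponents `ε/4`, and ALG with `K = C J^ε`: `m ≤ 12 C J^ε B`. -/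
def GRD_stmt : Prop := ∀ ε K₀ : ℝ, 0 < ε → 0 < K₀ → ∃ C : ℝ, 0 < C ∧ ∀ (J N : ℕ), 1 ≤ N →
  (J : ℝ) ^ (3 / 5 : ℝ) ≤ N → N ≤ J → ∃ U : ℝ, 0 < U ∧ K₀ * (J : ℝ) ^ ε * (N : ℝ) ^ (3 / 2 : ℝ) ≤ U ^ 2 ∧
  ∀ a : ℕ → ℂ, Co N a → mF J N a U ≤ C * (J : ℝ) ^ ε * BB J N

/-! ## 9. From the grid to separated points -/

/-- The Gaussian. -/
noncomputable def gs (s : ℝ) : ℝ := Real.exp (-(s ^ 2 / 2)) / Real.sqrt (2 * Real.pi)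

/-- The coefficients `a n exp ((log (n/N))²/2) / 2`. -/
noncomputable def bc (N : ℕ) (a : ℕ → ℂ) (n : ℕ) : ℂ :=
  a n * ((Real.exp (Real.log ((n : ℝ) / N) ^ 2 / 2) / 2 : ℝ) : ℂ)

/-- **GAU** (medium). uses: nothing. Local mean.
Proof. `x_n = log (n/N) ∈ (0, log 2]`, `n^(-iu) = N^(-iu) e^(-i x_n u)`. `∫ e^(-ixs) gs s ds = e^(-x²/2)` (Gaussian
Fourier transform), so with `b = bc N a`: `∑ a n e^(-i x_n t) = 2 ∫ (∑ b n e^(-i x_n (t+s))) gs s ds`, hence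
`‖DP N a t‖ ≤ 2 ∫ ‖DP N b (t+s)‖ gs s ds` and (Jensen or Cauchy-Schwarz twice, `∫ gs = 1`)
`‖DP N a t‖⁴ ≤ 16 ∫ ‖DP N b (t+s)‖⁴ gs s ds`. `e^((log 2)²/2)/2 ≤ 1`. -/
def GAU_stmt : Prop := ∀ (N : ℕ) (a : ℕ → ℂ), 1 ≤ N → Co N a → Co N (bc N a) ∧ ∀ t : ℝ,
  Integrable (fun s : ℝ => ‖DP N (bc N a) (t + s)‖ ^ 4 * gs s) ∧
  ‖DP N a t‖ ^ 4 ≤ 16 * ∫ s : ℝ, ‖DP N (bc N a) (t + s)‖ ^ 4 * gs s

/-- Points of `[0, T]` with pairwise distances at least `1`. -/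
def S1 (T : ℝ) (W : Finset ℝ) : Prop :=
  (∀ t ∈ W, 0 ≤ t ∧ t ≤ T) ∧ ∀ t ∈ W, ∀ s ∈ W, t ≠ s → 1 ≤ |t - s|

/-- **LVS** (medium). uses: nothing; library: `Pool.Agent.Results.MP_4467b5_nt.LargeValues.result` (or
`Pool.Agent.LV.large_values`). Large values near the points.
Proof. Split `W` into `q = ⌈2S⌉₊ + 2 ≤ 5 S` classes by `⌊t⌋ mod q`: different points of `W` have different integral
parts, so in a class the distances are `> q - 1 ≥ 2S + 1`. The points `t + s_t + S`, `t` in the class, are in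
`[0, T + 2S] ⊆ [0, 3T]`, with distances `≥ 1`; the library theorem with `3T`, the coefficients `a n n^(iS)`,
`∑ ‖a n‖² ≤ N`. -/
def LVS_stmt : Prop := ∀ ε : ℝ, 0 < ε → ∃ C : ℝ, 0 < C ∧ ∀ (T : ℝ) (N : ℕ) (a : ℕ → ℂ) (V S : ℝ)
  (W : Finset ℝ), 1 ≤ T → 1 ≤ N → (N : ℝ) ≤ T → 0 < V → 1 ≤ S → S ≤ T → S1 T W → Co N a →
  (∀ t ∈ W, ∃ s : ℝ, |s| ≤ S ∧ V ≤ ‖DP N a (t + s)‖) →
  C * T ^ ε * (N : ℝ) ^ (3 / 2 : ℝ) ≤ V ^ 2 →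
  (W.card : ℝ) ≤ C * S * T ^ ε * ((N : ℝ) ^ 2 / V ^ 2 + T ^ (1 / 2 : ℝ) * (N : ℝ) ^ 3 / V ^ 4)

/-- **ITG** (medium). uses: FEJ_stmt. From separated points to the grid.
Proof. `∫_(-S)^S h (t+s) gs s ds = ∫_(-S)^(T+S) h x gs (x-t) 1[|x-t| ≤ S] dx` for `t ∈ [0, T]`, and
`∑ t ∈ W, gs (x-t) ≤ C` (distances `≥ 1`). `∫_(-S)^(T+S) h ≤ ∑ j ∈ ℤ, |j| ≤ J/2, ∫_0^1 h (j+θ) dθ` and `w_j ≥ 1/2` for
`|j| ≤ J/2` (`h ≥ 0` measurable and bounded, so everything is integrable). -/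
def ITG_stmt : Prop := ∃ C : ℝ, 0 < C ∧ ∀ (T S H : ℝ) (W : Finset ℝ) (h : ℝ → ℝ) (J : ℕ), 1 ≤ T → 0 ≤ S →
  S1 T W → Measurable h → (∀ x, 0 ≤ h x ∧ h x ≤ H) → 2 * (T + S + 1) ≤ J →
  ∑ t ∈ W, ∫ s in (-S)..S, h (t + s) * gs s ≤
    C * ∫ θ in (0 : ℝ)..1, ∑ j ∈ IJ J, wj J j * h ((j : ℝ) + θ)

/-- **TAI** (short/medium). uses: nothing. The tail of the Gaussian, `S = K T^ε`, `K = K(ε)`.
Proof. `∫_(|s| > S) gs ≤ 2 e^(-S²/2)` and `e^(-K² T^(2ε)/2) ≤ T^(-4)/32` for all `T ≥ 1` if `K` is large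
(`e^(-x) ≤ k!/x^k`). -/
def TAI_stmt : Prop := ∀ ε : ℝ, 0 < ε → ∃ K : ℝ, 1 ≤ K ∧ ∀ T : ℝ, 1 ≤ T → ∀ f : ℝ → ℝ, Continuous f →
  (∀ s, 0 ≤ f s ∧ f s ≤ T ^ 4) → Integrable (fun s => f s * gs s) ∧
  ∫ s : ℝ, f s * gs s ≤ (∫ s in (-(K * T ^ ε))..(K * T ^ ε), f s * gs s) + 1 / 32

/-- **WTG** (medium/long). uses: GRD_stmt, GAU_stmt, LVS_stmt, ITG_stmt, TAI_stmt. Range `N ≥ J^(3/5)`.
Proof. `ε' = ε/8`. `V ≥ 1` (otherwise `W.card ≤ T + 1 ≤ 2 T ≤ 2 BB T N`). `S = K T^ε'` (TAI), WLOG `S ≤ T`: if `S > T`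
then `T ≤ C` and the claim is trivial with a large constant. `J = ⌈6 (T + 1)⌉₊` satisfies `2(T+S+1) ≤ J` and
`J ≤ 13 T`. (The hypothesis is `J^(3/5) ≤ N` for this `J`; `BB J N ≤ 13 BB T N`.) `U` from GRD with `K₀` = the constant
of LVS for `ε'` (times `1`); `U² ≥ K₀ J^ε' N^(3/2) ≥ K₀ T^ε' N^(3/2)`. `b = bc N a`.
`W₁ = {t ∈ W : ∃ |s| ≤ S, ‖DP N b (t+s)‖ > U}`. If `V ≤ U`: LVS at the level `U` bounds `W₁.card` by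
`C S T^ε' (N²/U² + T^(1/2) N³/U⁴) ≤ ... (N²/V² + T^(1/2) N³/V⁴)`. If `V > U`: LVS for `W` itself at the level `V` and
coefficients `a` (`s = 0`), finished. For `t ∈ W ∖ W₁` (case `V ≤ U`): GAU and TAI with
`f s = ‖DP N b (t+s)‖⁴ ≤ N⁴ ≤ T⁴`: `V⁴ ≤ 16 ∫_(-S)^S ‖DP N b (t+s)‖⁴ gs + 1/2`, and on this interval the integrand is
`h (t+s) gs s`, `h x = ‖DP N b x‖⁴ 1[‖DP N b x‖ ≤ U]`. Sum over `t`, ITG: `(V⁴ - 1/2) #(W ∖ W₁) ≤ 16 C ∫_0^1 mF J N b_θ U dθ`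
with `b_θ n = b n n^(-iθ)` (`DP N b (j+θ) = DP N b_θ j`), which is `≤ C J^ε' BB J N`. -/
def WTG_stmt : Prop := ∀ ε : ℝ, 0 < ε → ∃ C : ℝ, 0 < C ∧ ∀ (T : ℝ) (N : ℕ) (a : ℕ → ℂ) (V : ℝ)
  (W : Finset ℝ), 1 ≤ T → 1 ≤ N → (N : ℝ) ≤ T → ((⌈6 * (T + 1)⌉₊ : ℕ) : ℝ) ^ (3 / 5 : ℝ) ≤ N → 0 < V →
  S1 T W → Co N a → (∀ t ∈ W, V ≤ ‖DP N a t‖) →
  (W.card : ℝ) ≤ C * T ^ ε * ((N : ℝ) ^ 2 / V ^ 2 + BB T N / V ^ 4)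

/-- **FIN** (short/medium). uses: WTG_stmt, MVK_stmt (`Pool.Agent.helper86.ZD.SpecC`, proved in
`Pool/Agent/helper45/ZD/MVK.lean`; the file `FIN.lean` may import it). The theorem for points of `[T₀, T₀ + T]`.
Proof. Replace `a n` by `a n n^(-iT₀)`: WLOG `T₀ = 0`. If `⌈6(T+1)⌉₊^(3/5) ≤ N`: WTG. Otherwise
`N < (13 T)^(3/5)`. Apply MVK with `k = 2`, `A = 1` to `W + T ⊆ [T, 2T]` and the coefficients `a n n^(iT)`: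
`W.card V⁴ ≤ C T^ε (T + N²) N²`, and `N⁴ = N^(10/7) N^(18/7) ≤ C T^(6/7) N^(18/7)`. -/
def FIN_stmt : Prop := ∀ ε : ℝ, 0 < ε → ∃ C : ℝ, 0 < C ∧ ∀ (T T₀ : ℝ) (N : ℕ) (a : ℕ → ℂ) (V : ℝ)
  (W : Finset ℝ), 1 ≤ T → 1 ≤ N → (N : ℝ) ≤ T → 0 < V → (∀ n ∈ Finset.Ioc N (2 * N), ‖a n‖ ≤ 1) →
  (∀ t ∈ W, T₀ ≤ t ∧ t ≤ T₀ + T) → (∀ t ∈ W, ∀ s ∈ W, t ≠ s → 1 ≤ |t - s|) →
  (∀ t ∈ W, V ≤ ‖∑ n ∈ Finset.Ioc N (2 * N), a n * (n : ℂ) ^ (-((t : ℂ) * Complex.I))‖) →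
  (W.card : ℝ) ≤ C * T ^ ε * ((N : ℝ) ^ 2 / V ^ 2 + (T ^ (1 / 2 : ℝ) * (N : ℝ) ^ 3 +
    T ^ (6 / 7 : ℝ) * (N : ℝ) ^ (18 / 7 : ℝ) + T * (N : ℝ) ^ 2) / V ^ 4)

end Pool.Agent.LW
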